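import Pool.Agent.P.MP_c9b50d_al.C.Main

/-!
For every restricted simple Lie algebra of Cartan type other than the Witt algebra, in
characteristic at least 5, there are infinitely many pairwise non-conjugate characters whose
reduced enveloping algebras are isomorphic.
-/

namespace Pool.Agent.Results.MP_c9b50d_al.Converse

open Pool.Agent.Cart

theorem result (k : Type*) [Field k] [IsAlgClosed k] (p : ℕ) [Fact p.Prime] [CharP k p]
    (hp : 5 ≤ p) (T : Cartan) : St.Fails2 p (St.alg k p T) :=
  main' hp T

end Pool.Agent.Results.MP_c9b50d_al.Converse
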