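import Pool.Agent.P.MP_c9b50d_al.H.Main

/-!
The automorphism orbits on the dual of the Hamiltonian algebra H(2,1)^(2) in characteristic 5.
-/

namespace Pool.Agent.Results.MP_c9b50d_al.H2p5

open Pool.Agent.H25

theorem result (k : Type*) [Field k] [IsAlgClosed k] [CharP k 5] :
    (∀ n : NF k, ∃! χ : Module.Dual k (L k), Given χ n.h) ∧
    (∀ χ : Module.Dual k (L k), ∃ (n : NF k) (χ' : Module.Dual k (L k)),
      Given χ' n.h ∧ Conjugate (L k) χ χ') ∧
    ∀ (n n' : NF k) (χ χ' : Module.Dual k (L k)), Given χ n.h → Given χ' n'.h →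
      (Conjugate (L k) χ χ' ↔ n.Rule n') :=
  main

end Pool.Agent.Results.MP_c9b50d_al.H2p5
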