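import Pool.Agent.P.MP_c9b50d_al.Perfect

/-!
The automorphism orbits on the dual of the Jacobson-Witt algebra W(2,1) in characteristic 3.
-/

namespace Pool.Agent.Results.MP_c9b50d_al.W2p3

open Pool.Agent.W23

theorem result (k : Type*) [Field k] [IsAlgClosed k] [CharP k 3] :
    (∀ χ : Module.Dual k (G k), ∃ n : NF k, Conjugate (G k) χ n.char) ∧
    ∀ n n' : NF k, Conjugate (G k) n.char n'.char ↔ n.Rule n' := by
  refine ⟨fun χ => ?_, fun n n' => ?_⟩
  · obtain ⟨χ', rfl⟩ := comp_surj χ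
    obtain ⟨n, hn⟩ := exists_nf χ'
    exact ⟨n, (conj_comp _ _).mpr hn⟩
  · exact (conj_comp _ _).trans (conj_iff_rule n n')

end Pool.Agent.Results.MP_c9b50d_al.W2p3
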